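import Mathlib

/-! MP_49888f_co, circular segments: the area as an integral. -/

set_option autoImplicit false

namespace Pool.Agent.MP49888f.ES

open MeasureTheory Set

theorem area_integral (d : ℝ) (h0 : -1 ≤ d) (h1 : d ≤ 1) :
    volume {p : ℝ × ℝ | p.1 ^ 2 + p.2 ^ 2 ≤ 1 ∧ p.2 ≤ d} =
      ENNReal.ofReal (∫ y in (-1 : ℝ)..d, 2 * √(1 - y ^ 2)) := by
  have hmeas : MeasurableSet {p : ℝ × ℝ | p.1 ^ 2 + p.2 ^ 2 ≤ 1 ∧ p.2 ≤ d} := by
    have e1 : IsClosed {p : ℝ × ℝ | p.1 ^ 2 + p.2 ^ 2 ≤ 1} :=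
      isClosed_le (by fun_prop) (by fun_prop)
    have e2 : IsClosed {p : ℝ × ℝ | p.2 ≤ d} := isClosed_le (by fun_prop) (by fun_prop)
    exact (e1.inter e2).measurableSet
  have hcont : Continuous fun y : ℝ => 2 * √(1 - y ^ 2) := by fun_prop
  have hslice : ∀ y : ℝ, volume ((fun x : ℝ => (x, y)) ⁻¹'
      {p : ℝ × ℝ | p.1 ^ 2 + p.2 ^ 2 ≤ 1 ∧ p.2 ≤ d}) =
      (Icc (-1 : ℝ) d).indicator (fun y => ENNReal.ofReal (2 * √(1 - y ^ 2))) y := by
    intro y
    by_cases hy : y ∈ Icc (-1 : ℝ) d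
    · rw [indicator_of_mem hy]
      have hset : (fun x : ℝ => (x, y)) ⁻¹' {p : ℝ × ℝ | p.1 ^ 2 + p.2 ^ 2 ≤ 1 ∧ p.2 ≤ d} =
          Icc (-√(1 - y ^ 2)) (√(1 - y ^ 2)) := by
        ext x
        simp only [mem_preimage, mem_ofPred_eq, mem_Icc]
        have hy2 : 0 ≤ 1 - y ^ 2 := by nlinarith [hy.1, hy.2]
        constructor
        · rintro ⟨h, _⟩
          exact abs_le.1 (Real.abs_le_sqrt (by linarith))
        · rintro ⟨h2, h3⟩
          refine ⟨?_, hy.2⟩
          have h4 : x ^ 2 ≤ √(1 - y ^ 2) ^ 2 := sq_le_sq' h2 h3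
          rw [Real.sq_sqrt hy2] at h4
          linarith
      rw [hset, Real.volume_Icc]
      congr 1
      ring
    · rw [indicator_of_notMem hy]
      have hset : (fun x : ℝ => (x, y)) ⁻¹' {p : ℝ × ℝ | p.1 ^ 2 + p.2 ^ 2 ≤ 1 ∧ p.2 ≤ d} = ∅ := by
        ext x
        simp only [mem_preimage, mem_ofPred_eq, mem_empty_iff_false, iff_false, not_and, not_le]
        intro h
        by_contra hc
        push Not at hc
        apply hy
        refine ⟨?_, hc⟩
        nlinarith [sq_nonneg x]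
      rw [hset, measure_empty]
  rw [Measure.volume_eq_prod, Measure.prod_apply_symm hmeas]
  simp_rw [hslice]
  rw [lintegral_indicator measurableSet_Icc, intervalIntegral.integral_of_le h0,
    ← integral_Icc_eq_integral_Ioc]
  rw [ofReal_integral_eq_lintegral_ofReal]
  · exact (hcont.continuousOn).integrableOn_compact isCompact_Icc
  · exact Filter.Eventually.of_forall fun y => by positivity

end Pool.Agent.MP49888f.ES
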