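import Mathlib

/-! MP_49888f_co, circular segments: values and tangents of the area integral. -/

set_option autoImplicit false

namespace Pool.Agent.MP49888f.ES

open MeasureTheory Set

private theorem cont_f : Continuous fun y : ℝ => 2 * √(1 - y ^ 2) := by fun_prop

/-- `∫_{-1}^{-cos a} 2 √(1-y²) dy = a - sin a cos a`; antiderivative `arcsin y + y √(1-y²)` (continuous on `[-1,1]`,
derivative `2 √(1-y²)` on `(-1,1)`: `intervalIntegral.integral_eq_sub_of_hasDerivAt_of_le`). -/
theorem integral_cos (a : ℝ) (h0 : 0 ≤ a) (h1 : a ≤ Real.pi) :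
    ∫ y in (-1 : ℝ)..(-Real.cos a), 2 * √(1 - y ^ 2) = a - Real.sin a * Real.cos a := by
  have hle : (-1 : ℝ) ≤ -Real.cos a := by
    have := Real.cos_le_one a
    linarith
  have hge : -Real.cos a ≤ 1 := by
    have := Real.neg_one_le_cos a
    linarith
  have hsin : √(1 - (-Real.cos a) ^ 2) = Real.sin a := by
    have h2 : 1 - (-Real.cos a) ^ 2 = Real.sin a ^ 2 := by
      rw [Real.sin_sq]
      ring
    rw [h2, Real.sqrt_sq (Real.sin_nonneg_of_nonneg_of_le_pi h0 h1)]
  have key := intervalIntegral.integral_eq_sub_of_hasDerivAt_of_le (f := fun y : ℝ =>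
    Real.arcsin y + y * √(1 - y ^ 2)) (f' := fun y : ℝ => 2 * √(1 - y ^ 2)) hle
    (by
      apply Continuous.continuousOn
      exact Real.continuous_arcsin.add (continuous_id.mul (by fun_prop)))
    (by
      intro y hy
      have hy1 : -1 < y := hy.1
      have hy2 : y < 1 := lt_of_lt_of_le hy.2 hge
      have hpos : 0 < 1 - y ^ 2 := by nlinarith
      have hs : 0 < √(1 - y ^ 2) := Real.sqrt_pos.2 hpos
      have d1 := Real.hasDerivAt_arcsin hy1.ne' hy2.ne
      have d2 : HasDerivAt (fun y : ℝ => 1 - y ^ 2) (-(2 * y)) y := by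
        have := (hasDerivAt_pow 2 y).const_sub 1
        simpa using this
      have d3 := d2.sqrt hpos.ne'
      have d4 := (hasDerivAt_id y).mul d3
      have d5 := d1.add d4
      refine d5.congr_deriv ?_
      simp only [id]
      have hsq : √(1 - y ^ 2) * √(1 - y ^ 2) = 1 - y ^ 2 := Real.mul_self_sqrt hpos.le
      field_simp
      nlinarith [hsq])
    (cont_f.intervalIntegrable _ _)
  rw [key, hsin, Real.arcsin_neg_one]
  have harc : Real.arcsin (-Real.cos a) = a - Real.pi / 2 := by
    have h3 : -Real.cos a = Real.sin (a - Real.pi / 2) := by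
      rw [Real.sin_sub_pi_div_two]
    rw [h3, Real.arcsin_sin (by linarith) (by linarith)]
  rw [harc]
  norm_num
  ring

/-- tangents: the integral is concave in `d` on `[0,1]` -/
theorem integral_tangent (d₀ d : ℝ) (h0 : 0 ≤ d₀) (h1 : d₀ ≤ 1) (h2 : 0 ≤ d) (h3 : d ≤ 1) :
    ∫ y in (-1 : ℝ)..d, 2 * √(1 - y ^ 2) ≤
      (∫ y in (-1 : ℝ)..d₀, 2 * √(1 - y ^ 2)) + 2 * √(1 - d₀ ^ 2) * (d - d₀) := by
  have hadd := intervalIntegral.integral_add_adjacent_intervals
    (cont_f.intervalIntegrable (μ := volume) (-1) d₀) (cont_f.intervalIntegrable (μ := volume) d₀ d)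
  have hkey : ∫ y in d₀..d, 2 * √(1 - y ^ 2) ≤ 2 * √(1 - d₀ ^ 2) * (d - d₀) := by
    have hmono : ∀ x y : ℝ, 0 ≤ x → x ≤ y → 2 * √(1 - y ^ 2) ≤ 2 * √(1 - x ^ 2) := by
      intro x y hx hxy
      have : √(1 - y ^ 2) ≤ √(1 - x ^ 2) := Real.sqrt_le_sqrt (by nlinarith)
      linarith
    rcases le_total d₀ d with h | h
    · have h4 := intervalIntegral.integral_mono_on (μ := volume) h
        (cont_f.intervalIntegrable d₀ d)
        ((continuous_const (y := 2 * √(1 - d₀ ^ 2))).intervalIntegrable d₀ d)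
        (fun y hy => hmono d₀ y h0 hy.1)
      rw [intervalIntegral.integral_const, smul_eq_mul] at h4
      linarith
    · have h4 := intervalIntegral.integral_mono_on (μ := volume) h
        ((continuous_const (y := 2 * √(1 - d₀ ^ 2))).intervalIntegrable d d₀)
        (cont_f.intervalIntegrable d d₀)
        (fun y hy => hmono y d₀ (h2.trans hy.1) hy.2)
      rw [intervalIntegral.integral_const, smul_eq_mul] at h4
      rw [intervalIntegral.integral_symm]
      linarith
  linarith

end Pool.Agent.MP49888f.ES
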