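import Pool.Agent.Lib.MP_49888f_co.CV.Cover
import Pool.Agent.Lib.MP_49888f_co.CV.Dens
import Pool.Agent.Lib.MP_49888f_co.CV.Frame

/-! MP_49888f_co, elliptical segments: coverings from a hexagon given by coordinates in a frame (helper47). -/

set_option autoImplicit false

namespace Pool.Agent.MP49888f.ES

open MeasureTheory Set Pool.Agent.MP49888f.CV

private theorem hexagon (C : Set E2) (hC : Convex ℝ C) (hk : IsCompact C) (A e f P Q : E2)
    (hA : A ∈ C) (hAe : A + e ∈ C) (hAf : A + f ∈ C) (hAef : A + e + f ∈ C) (hP : P ∈ C) (hQ : Q ∈ C)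
    (h0 : 0 ≤ cr e f) (h1 : cr e (A + f) ≤ cr e P) (h2 : cr e Q ≤ cr e A)
    (hH : 0 < cr e (f + P - Q)) :
    CovLE C (2 * (volume C).toReal / cr e (f + P - Q)) := by
  let g : E2 →ₗ[ℝ] ℝ :=
    { toFun := fun x => cr e x
      map_add' := fun x y => cr_add_right e x y
      map_smul' := fun m x => by
        show cr e (m • x) = m * cr e x
        exact cr_smul_right m e x }
  have he0 : e ≠ 0 := by
    rintro rfl
    rw [cr_zero_left] at hH
    exact lt_irrefl _ hH
  have he : ∀ x, g x = 0 → ∃ b : ℝ, x = b • e := by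
    intro x hx
    have hx' : e 0 * x 1 - e 1 * x 0 = 0 := hx
    by_cases c0 : e 0 = 0
    · have c1 : e 1 ≠ 0 := by
        intro c1
        apply he0
        ext i
        fin_cases i
        · exact c0
        · exact c1
      refine ⟨x 1 / e 1, ?_⟩
      rw [c0] at hx'
      have hx0 : x 0 = 0 := by
        have : e 1 * x 0 = 0 := by linarith
        rcases mul_eq_zero.mp this with h | h
        · exact absurd h c1
        · exact h
      ext i
      fin_cases i
      · show x 0 = x 1 / e 1 * e 0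
        rw [c0, hx0, mul_zero]
      · show x 1 = x 1 / e 1 * e 1
        field_simp
    · refine ⟨x 0 / e 0, ?_⟩
      ext i
      fin_cases i
      · show x 0 = x 0 / e 0 * e 0
        field_simp
      · show x 1 = x 0 / e 0 * e 1
        field_simp
        linarith
  have hcov := dens C hk ⟨A, hA⟩ e (f + P - Q) (A + f + P) hH.ne' (fun x => by
    exact cover C hC g A e f P Q he (cr_self e) hA hAe hAf hAef hP hQ h0 h1 h2 hH x)
  rwa [abs_of_pos hH] at hcov

theorem cr_fr (u w : E2) (p q : ℝ × ℝ) :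
    cr (fr u w p) (fr u w q) = cr u w * (p.1 * q.2 - p.2 * q.1) := by
  simp [cr, fr]
  ring

theorem fr_add (u w : E2) (p q : ℝ × ℝ) : fr u w (p + q) = fr u w p + fr u w q := by
  show (p.1 + q.1) • u + (p.2 + q.2) • w = p.1 • u + p.2 • w + (q.1 • u + q.2 • w)
  rw [add_smul, add_smul]
  abel

theorem fr_smul (u w : E2) (a : ℝ) (p : ℝ × ℝ) : fr u w (a • p) = a • fr u w p := by
  show (a * p.1) • u + (a * p.2) • w = a • (p.1 • u + p.2 • w)
  rw [smul_add, smul_smul, smul_smul]

theorem hexagon_fr (c u w : E2) (hD : 0 < cr u w) (S : Set (ℝ × ℝ)) (hS : Convex ℝ S)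
    (hSk : IsCompact S) (a1 a2 e1 e2 f1 f2 p1 p2 q1 q2 K θ : ℝ)
    (hA : (a1, a2) ∈ S) (hAe : (a1 + e1, a2 + e2) ∈ S) (hAf : (a1 + f1, a2 + f2) ∈ S)
    (hAef : (a1 + e1 + f1, a2 + e2 + f2) ∈ S) (hP : (p1, p2) ∈ S) (hQ : (q1, q2) ∈ S)
    (h0 : 0 ≤ e1 * f2 - e2 * f1) (h1 : e1 * (a2 + f2) - e2 * (a1 + f1) ≤ e1 * p2 - e2 * p1)
    (h2 : e1 * q2 - e2 * q1 ≤ e1 * a2 - e2 * a1)
    (hH : 0 < e1 * (f2 + p2 - q2) - e2 * (f1 + p1 - q1))
    (hK : (volume S).toReal ≤ K) (hθ : 2 * K ≤ θ * (e1 * (f2 + p2 - q2) - e2 * (f1 + p1 - q1))) :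
    CovLE ((fun p : ℝ × ℝ => c + fr u w p) '' S) θ := by
  have himg : (fun p : ℝ × ℝ => c + fr u w p) '' S = (fun x : E2 => c + x) '' (fr u w '' S) := by
    rw [Set.image_image]
  have hconv : Convex ℝ ((fun p : ℝ × ℝ => c + fr u w p) '' S) := by
    rintro _ ⟨p, hp, rfl⟩ _ ⟨q, hq, rfl⟩ a b ha hb hab
    refine ⟨a • p + b • q, hS hp hq ha hb hab, ?_⟩
    show c + fr u w (a • p + b • q) = a • (c + fr u w p) + b • (c + fr u w q)
    rw [fr_add, fr_smul, fr_smul, smul_add, smul_add]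
    have : c = a • c + b • c := by rw [← add_smul, hab, one_smul]
    nth_rewrite 1 [this]
    abel
  have hcomp : IsCompact ((fun p : ℝ × ℝ => c + fr u w p) '' S) :=
    hSk.image (continuous_const.add (continuous_fr u w))
  have hvol : volume ((fun p : ℝ × ℝ => c + fr u w p) '' S) = ENNReal.ofReal (cr u w) * volume S := by
    rw [himg, Set.image_add_left, measure_preimage_add, volume_fr_image, abs_of_pos hD]
  have hvol' : (volume ((fun p : ℝ × ℝ => c + fr u w p) '' S)).toReal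
      = cr u w * (volume S).toReal := by
    rw [hvol, ENNReal.toReal_mul, ENNReal.toReal_ofReal hD.le]
  have mem : ∀ x y : ℝ, (x, y) ∈ S → c + fr u w (x, y) ∈ (fun p : ℝ × ℝ => c + fr u w p) '' S :=
    fun x y h => ⟨(x, y), h, rfl⟩
  have hadd : ∀ x y x' y' : ℝ, fr u w (x + x', y + y') = fr u w (x, y) + fr u w (x', y') :=
    fun x y x' y' => fr_add u w (x, y) (x', y')
  have m2 := mem _ _ hAe
  have m3 := mem _ _ hAf
  have m4 := mem _ _ hAef
  rw [hadd, ← add_assoc] at m2 m3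
  rw [hadd, hadd, ← add_assoc, ← add_assoc] at m4
  have hcr : ∀ x y x' y' : ℝ, cr (fr u w (x, y)) (fr u w (x', y')) = cr u w * (x * y' - y * x') :=
    fun x y x' y' => cr_fr u w (x, y) (x', y')
  have key := hexagon ((fun p : ℝ × ℝ => c + fr u w p) '' S) hconv hcomp (c + fr u w (a1, a2))
    (fr u w (e1, e2)) (fr u w (f1, f2)) (c + fr u w (p1, p2)) (c + fr u w (q1, q2))
    (mem _ _ hA) m2 m3 m4 (mem _ _ hP) (mem _ _ hQ)
    (by rw [hcr]; exact mul_nonneg hD.le h0)
    (by
      rw [cr_add_right, cr_add_right, cr_add_right, hcr, hcr, hcr]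
      have := mul_le_mul_of_nonneg_left h1 hD.le
      nlinarith [this])
    (by
      rw [cr_add_right, cr_add_right, hcr, hcr]
      have := mul_le_mul_of_nonneg_left h2 hD.le
      nlinarith [this])
    (by
      rw [cr_sub_right, cr_add_right, cr_add_right, cr_add_right, hcr, hcr, hcr]
      have := mul_pos hD hH
      nlinarith [this])
  have hN : cr (fr u w (e1, e2)) (fr u w (f1, f2) + (c + fr u w (p1, p2)) - (c + fr u w (q1, q2)))
      = cr u w * (e1 * (f2 + p2 - q2) - e2 * (f1 + p1 - q1)) := by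
    rw [cr_sub_right, cr_add_right, cr_add_right, cr_add_right, hcr, hcr, hcr]
    ring
  rw [hN, hvol'] at key
  refine key.mono ?_
  rw [div_le_iff₀ (mul_pos hD hH)]
  have h3 : 2 * (volume S).toReal ≤ θ * (e1 * (f2 + p2 - q2) - e2 * (f1 + p1 - q1)) := by linarith
  have := mul_le_mul_of_nonneg_left h3 hD.le
  nlinarith [this]

end Pool.Agent.MP49888f.ES
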