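import Mathlib

/-! MP_49888f_co, circular segments: the trigonometric inequality for segments at most half a disc. -/

set_option autoImplicit false

namespace Pool.Agent.MP49888f.ES

private noncomputable def phi (x : ℝ) : ℝ :=
  8 * Real.pi * Real.sin x ^ 3 - 3 * √3 * (3 * x - Real.sin (3 * x))

private noncomputable def psi (c : ℝ) : ℝ := (24 * Real.pi - 36 * √3) * (c ^ 2 + c) - 9 * √3

private theorem sqrt3_sq : √3 * √3 = (3 : ℝ) := Real.mul_self_sqrt (by norm_num)

private theorem sqrt3_lt : √3 < (1.74 : ℝ) := by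
  rw [Real.sqrt_lt' (by norm_num)]
  norm_num

private theorem coef_pos : 0 < 24 * Real.pi - 36 * √3 := by
  have h1 := sqrt3_lt
  have h2 := Real.pi_gt_d2
  linarith

private theorem hasDeriv (x : ℝ) :
    HasDerivAt phi ((1 - Real.cos x) * psi (Real.cos x)) x := by
  have h1 : HasDerivAt (fun x : ℝ => 3 * x) 3 x := by
    simpa using (hasDerivAt_id x).const_mul (3 : ℝ)
  have h2 : HasDerivAt (fun x : ℝ => Real.sin (3 * x)) (Real.cos (3 * x) * 3) x := h1.sin
  have h3 : HasDerivAt (fun x : ℝ => Real.sin x ^ 3) (3 * Real.sin x ^ 2 * Real.cos x) x := by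
    have h := (Real.hasDerivAt_sin x).pow 3
    have e : (3 * Real.sin x ^ 2 * Real.cos x : ℝ) = ((3 : ℕ) : ℝ) * Real.sin x ^ (3 - 1) * Real.cos x := by
      norm_num
    rw [e]
    exact h
  have h4 : HasDerivAt phi (8 * Real.pi * (3 * Real.sin x ^ 2 * Real.cos x) -
      3 * √3 * (3 - Real.cos (3 * x) * 3)) x :=
    (h3.const_mul (8 * Real.pi)).sub ((h1.sub h2).const_mul (3 * √3))
  convert h4 using 1
  rw [Real.cos_three_mul, Real.sin_sq, psi]
  ring

private theorem psi_mono {c d : ℝ} (hc : 0 ≤ c) (hcd : c ≤ d) : psi c ≤ psi d := by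
  unfold psi
  have h1 := coef_pos
  have h2 : c ^ 2 + c ≤ d ^ 2 + d := by nlinarith
  nlinarith [mul_le_mul_of_nonneg_left h2 h1.le]

private theorem phi_zero : phi 0 = 0 := by
  unfold phi
  simp

private theorem phi_third : phi (Real.pi / 3) = 0 := by
  unfold phi
  have h1 : 3 * (Real.pi / 3) = Real.pi := by ring
  rw [h1, Real.sin_pi, Real.sin_pi_div_three]
  have h2 := sqrt3_sq
  linear_combination Real.pi * √3 * h2

theorem trig (x : ℝ) (h0 : 0 ≤ x) (h1 : x ≤ Real.pi / 3) :
    3 * √3 * (3 * x - Real.sin (3 * x)) ≤ 8 * Real.pi * Real.sin x ^ 3 := by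
  have hpi := Real.pi_pos
  have hd : Differentiable ℝ phi := fun t => (hasDeriv t).differentiableAt
  have hcos : ∀ t, 0 ≤ t → t ≤ Real.pi / 3 → 0 ≤ Real.cos t := fun t ht0 ht1 =>
    Real.cos_nonneg_of_mem_Icc ⟨by linarith, by linarith⟩
  have key : 0 ≤ phi x := by
    rcases le_total 0 (psi (Real.cos x)) with h | h
    · have hm : MonotoneOn phi (Set.Icc 0 x) := by
        apply monotoneOn_of_deriv_nonneg (convex_Icc 0 x) hd.continuous.continuousOn
          hd.differentiableOn
        intro t ht
        rw [interior_Icc] at ht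
        rw [(hasDeriv t).deriv]
        apply mul_nonneg (by linarith [Real.cos_le_one t])
        refine h.trans (psi_mono (hcos x h0 h1) ?_)
        exact Real.cos_le_cos_of_nonneg_of_le_pi ht.1.le (by linarith) ht.2.le
      have h2 := hm (Set.left_mem_Icc.2 h0) (Set.right_mem_Icc.2 h0) h0
      rwa [phi_zero] at h2
    · have hm : AntitoneOn phi (Set.Icc x (Real.pi / 3)) := by
        apply antitoneOn_of_deriv_nonpos (convex_Icc x (Real.pi / 3)) hd.continuous.continuousOn
          hd.differentiableOn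
        intro t ht
        rw [interior_Icc] at ht
        rw [(hasDeriv t).deriv]
        apply mul_nonpos_of_nonneg_of_nonpos (by linarith [Real.cos_le_one t])
        refine (psi_mono (hcos t (by linarith [ht.1]) ht.2.le) ?_).trans h
        exact Real.cos_le_cos_of_nonneg_of_le_pi h0 (by linarith [ht.2]) ht.1.le
      have h2 := hm (Set.left_mem_Icc.2 h1) (Set.right_mem_Icc.2 h1) h1
      rwa [phi_third] at h2
  unfold phi at key
  linarith

end Pool.Agent.MP49888f.ES
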