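import Pool.Agent.Lib.MP_49888f_co.ES.Hex
import Pool.Agent.Lib.MP_49888f_co.ES.Area1
import Pool.Agent.Lib.MP_49888f_co.ES.Area2
import Pool.Agent.Lib.MP_49888f_co.ES.Trig

/-! MP_49888f_co, elliptical segments: the five hexagons (helper47). -/

set_option autoImplicit false

namespace Pool.Agent.MP49888f.ES

open MeasureTheory Set Pool.Agent.MP49888f.CV

/-- the segment of the unit disc below height `d` -/
def Seg (d : ℝ) : Set (ℝ × ℝ) := {p : ℝ × ℝ | p.1 ^ 2 + p.2 ^ 2 ≤ 1 ∧ p.2 ≤ d}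

theorem seg_convex (d : ℝ) : Convex ℝ (Seg d) := by
  rintro ⟨x, y⟩ ⟨h1, h2⟩ ⟨x', y'⟩ ⟨h1', h2'⟩ a b ha hb hab
  simp only at h1 h2 h1' h2'
  refine ⟨?_, ?_⟩
  · show (a * x + b * x') ^ 2 + (a * y + b * y') ^ 2 ≤ 1
    have hb' : b = 1 - a := by linarith
    subst hb'
    nlinarith [mul_nonneg ha hb, sq_nonneg (x - x'), sq_nonneg (y - y'),
      mul_nonneg (mul_nonneg ha hb) (add_nonneg (sq_nonneg (x - x')) (sq_nonneg (y - y'))),
      mul_le_mul_of_nonneg_left h1 ha, mul_le_mul_of_nonneg_left h1' hb]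
  · show a * y + b * y' ≤ d
    have e1 := mul_le_mul_of_nonneg_left h2 ha
    have e2 := mul_le_mul_of_nonneg_left h2' hb
    have : a * d + b * d = d := by rw [← add_mul, hab, one_mul]
    linarith

theorem seg_compact (d : ℝ) : IsCompact (Seg d) := by
  have hcl : IsClosed (Seg d) := by
    have h1 : IsClosed {p : ℝ × ℝ | p.1 ^ 2 + p.2 ^ 2 ≤ 1} :=
      isClosed_le (by fun_prop) continuous_const
    have h2 : IsClosed {p : ℝ × ℝ | p.2 ≤ d} := isClosed_le continuous_snd continuous_const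
    exact h1.inter h2
  refine (isCompact_Icc (a := ((-1 : ℝ), (-1 : ℝ))) (b := ((1 : ℝ), (1 : ℝ)))).of_isClosed_subset hcl ?_
  rintro ⟨x, y⟩ ⟨h1, -⟩
  simp only at h1
  have hx : |x| ≤ 1 := by
    rw [← sq_le_one_iff_abs_le_one]
    nlinarith [sq_nonneg y]
  have hy : |y| ≤ 1 := by
    rw [← sq_le_one_iff_abs_le_one]
    nlinarith [sq_nonneg x]
  rw [abs_le] at hx hy
  exact ⟨⟨hx.1, hy.1⟩, ⟨hx.2, hy.2⟩⟩

theorem integral_nonneg' (d : ℝ) (h0 : -1 ≤ d) : 0 ≤ ∫ y in (-1 : ℝ)..d, 2 * √(1 - y ^ 2) :=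
  intervalIntegral.integral_nonneg h0 (fun _ _ => by positivity)

theorem vol_seg (d : ℝ) (h0 : -1 ≤ d) (h1 : d ≤ 1) :
    (volume (Seg d)).toReal = ∫ y in (-1 : ℝ)..d, 2 * √(1 - y ^ 2) := by
  have := area_integral d h0 h1
  rw [show volume (Seg d) = _ from this]
  exact ENNReal.toReal_ofReal (integral_nonneg' d h0)

theorem I_zero : ∫ y in (-1 : ℝ)..0, 2 * √(1 - y ^ 2) = Real.pi / 2 := by
  have h := integral_cos (Real.pi / 2) (by positivity) (by linarith [Real.pi_pos])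
  rw [Real.cos_pi_div_two, Real.sin_pi_div_two] at h
  simpa using h

theorem I_half : ∫ y in (-1 : ℝ)..(1 / 2), 2 * √(1 - y ^ 2) = 2 * Real.pi / 3 + √3 / 4 := by
  have h := integral_cos (Real.pi - Real.pi / 3) (by linarith [Real.pi_pos]) (by linarith [Real.pi_pos])
  rw [Real.cos_pi_sub, Real.sin_pi_sub, Real.cos_pi_div_three, Real.sin_pi_div_three, neg_neg] at h
  rw [h]
  ring

theorem I_sqrt : ∫ y in (-1 : ℝ)..(√3 / 2), 2 * √(1 - y ^ 2) = 5 * Real.pi / 6 + √3 / 4 := by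
  have h := integral_cos (Real.pi - Real.pi / 6) (by linarith [Real.pi_pos]) (by linarith [Real.pi_pos])
  rw [Real.cos_pi_sub, Real.sin_pi_sub, Real.cos_pi_div_six, Real.sin_pi_div_six, neg_neg] at h
  rw [h]
  ring

theorem I_one : ∫ y in (-1 : ℝ)..1, 2 * √(1 - y ^ 2) = Real.pi := by
  have h := integral_cos Real.pi Real.pi_pos.le le_rfl
  rw [Real.cos_pi, Real.sin_pi, neg_neg] at h
  simpa using h

theorem theta_eq : (2 * Real.pi / √27 : ℝ) = 2 * Real.pi / (3 * √3) := by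
  congr 1
  rw [show (27 : ℝ) = 3 ^ 2 * 3 by norm_num, Real.sqrt_mul (by norm_num), Real.sqrt_sq (by norm_num)]

/-- reduction of the last condition -/
theorem theta_le {K N : ℝ} (h : 3 * √3 * K ≤ Real.pi * N) : 2 * K ≤ 2 * Real.pi / √27 * N := by
  rw [theta_eq]
  have h3 : (0 : ℝ) < 3 * √3 := by positivity
  rw [div_mul_eq_mul_div, le_div_iff₀ h3]
  linarith

theorem seg_pos (c u w : E2) (hD : 0 < cr u w) (d : ℝ) (h0 : -1 < d) :
    CovLE ((fun p : ℝ × ℝ => c + fr u w p) '' Seg d) (2 * Real.pi / √27) := by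
  have hpi := Real.pi_gt_d2
  have hpi' := Real.pi_lt_d2
  have hs3 : √3 * √3 = 3 := Real.mul_self_sqrt (by norm_num)
  have hs0 : (0 : ℝ) < √3 := by positivity
  have hs1 : 1.73 < √3 := by
    rw [show (1.73 : ℝ) = √(1.73 ^ 2) by rw [Real.sqrt_sq (by norm_num)]]
    exact Real.sqrt_lt_sqrt (by norm_num) (by norm_num)
  have hs2 : √3 < 1.7321 := by
    rw [show (1.7321 : ℝ) = √(1.7321 ^ 2) by rw [Real.sqrt_sq (by norm_num)]]
    exact Real.sqrt_lt_sqrt (by norm_num) (by norm_num)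
  by_cases c0 : d ≤ 0
  · -- at most half a disc
    obtain ⟨t, ht0, ht1, htd⟩ : ∃ t : ℝ, 0 < t ∧ t ≤ Real.pi / 6 ∧ d = -Real.cos (3 * t) := by
      refine ⟨Real.arccos (-d) / 3, ?_, ?_, ?_⟩
      · have := Real.arccos_pos.mpr (show -d < 1 by linarith)
        positivity
      · have := Real.arccos_le_pi_div_two.mpr (show 0 ≤ -d by linarith)
        linarith
      · rw [mul_div_cancel₀ _ (by norm_num : (3 : ℝ) ≠ 0), Real.cos_arccos (by linarith) (by linarith), neg_neg]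
    have hsint : 0 < Real.sin t := Real.sin_pos_of_pos_of_lt_pi ht0 (by linarith)
    have hsin3 : 0 < Real.sin (3 * t) := Real.sin_pos_of_pos_of_lt_pi (by linarith) (by linarith)
    have hcos : Real.cos (3 * t) < Real.cos t :=
      Real.cos_lt_cos_of_nonneg_of_le_pi ht0.le (by linarith) (by linarith)
    have hsin : Real.sin t ≤ Real.sin (3 * t) :=
      Real.sin_le_sin_of_le_of_le_pi_div_two (by linarith) (by linarith) (by linarith)
    have h1 := Real.sin_sq_add_cos_sq t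
    have h2 := Real.sin_sq_add_cos_sq (3 * t)
    have hN : (Real.cos t - Real.cos (3 * t)) * (2 * Real.sin t + 2 * Real.sin (3 * t))
        = 4 * Real.sin (2 * t) ^ 3 := by
      rw [Real.cos_three_mul, Real.sin_three_mul, Real.sin_two_mul]
      have hc2 : Real.cos t ^ 2 = 1 - Real.sin t ^ 2 := by linarith
      have e1 : Real.cos t - (4 * Real.cos t ^ 3 - 3 * Real.cos t)
          = 4 * Real.cos t * Real.sin t ^ 2 := by
        have : Real.cos t ^ 3 = Real.cos t * (1 - Real.sin t ^ 2) := by rw [← hc2]; ring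
        rw [this]; ring
      have e2 : 2 * Real.sin t + 2 * (3 * Real.sin t - 4 * Real.sin t ^ 3)
          = 8 * Real.sin t * Real.cos t ^ 2 := by rw [hc2]; ring
      rw [e1, e2]
      ring
    have hK : (volume (Seg d)).toReal = 3 * t - Real.sin (3 * t) * Real.cos (3 * t) := by
      rw [vol_seg d h0.le (by linarith), htd]
      exact integral_cos (3 * t) (by linarith) (by linarith)
    have htr := trig (2 * t) (by linarith) (by linarith)
    have e6 : Real.sin (3 * (2 * t)) = 2 * Real.sin (3 * t) * Real.cos (3 * t) := by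
      rw [show 3 * (2 * t) = 2 * (3 * t) by ring, Real.sin_two_mul]
    rw [e6] at htr
    refine hexagon_fr c u w hD (Seg d) (seg_convex d) (seg_compact d)
      (Real.sin t) (-Real.cos t) 0 (Real.cos t - Real.cos (3 * t)) (-(2 * Real.sin t)) 0
      (-Real.sin (3 * t)) (-Real.cos (3 * t)) (Real.sin (3 * t)) (-Real.cos (3 * t)) _ _
      ⟨?_, ?_⟩ ⟨?_, ?_⟩ ⟨?_, ?_⟩ ⟨?_, ?_⟩ ⟨?_, ?_⟩ ⟨?_, ?_⟩ ?_ ?_ ?_ ?_ hK.le (theta_le ?_) <;>
      (try simp only [htd])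
    · nlinarith
    · linarith
    · nlinarith
    · linarith
    · nlinarith
    · linarith
    · nlinarith
    · linarith
    · nlinarith
    · linarith
    · nlinarith
    · linarith
    · nlinarith
    · nlinarith
    · nlinarith
    · nlinarith
    · have e7 : (0 : ℝ) * (0 + -Real.cos (3 * t) - -Real.cos (3 * t))
          - (Real.cos t - Real.cos (3 * t)) * (-(2 * Real.sin t) + -Real.sin (3 * t) - Real.sin (3 * t))
          = 4 * Real.sin (2 * t) ^ 3 := by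
        rw [← hN]; ring
      rw [e7]
      nlinarith
  push Not at c0
  by_cases c1 : d ≤ 1 / 2
  · have hK : (volume (Seg d)).toReal ≤ Real.pi / 2 + 2 * d := by
      rw [vol_seg d h0.le (by linarith)]
      have := integral_tangent 0 d le_rfl (by norm_num) c0.le (by linarith)
      rw [I_zero] at this
      simpa using this
    have hf : 3 * √3 * (Real.pi / 2 + 2 * d) ≤
        Real.pi * (√3 * (d + 1 / 2 + d - -1) - 0 * (0 + 0 - 0)) := by
      have e1 : 0 ≤ √3 * d * (2 * Real.pi - 6) :=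
        mul_nonneg (mul_nonneg hs0.le c0.le) (by linarith)
      have e2 : Real.pi * (√3 * (d + 1 / 2 + d - -1) - 0 * (0 + 0 - 0))
        - 3 * √3 * (Real.pi / 2 + 2 * d) = √3 * d * (2 * Real.pi - 6) := by ring
      linarith
    have hdd : d ^ 2 ≤ 1 / 4 := by nlinarith
    have hsd : 0 ≤ √3 * d := by positivity
    refine hexagon_fr c u w hD (Seg d) (seg_convex d) (seg_compact d)
      (-(√3 / 2)) (-(1 / 2)) (√3) 0 0 (d + 1 / 2) 0 d 0 (-1) _ _
      ⟨?_, ?_⟩ ⟨?_, ?_⟩ ⟨?_, ?_⟩ ⟨?_, ?_⟩ ⟨?_, ?_⟩ ⟨?_, ?_⟩ ?_ ?_ ?_ ?_ hK (theta_le hf) <;>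
      (try simp only) <;> nlinarith
  push Not at c1
  by_cases c2 : d ≤ 3 / 5
  · have hK : (volume (Seg d)).toReal ≤ 2 * Real.pi / 3 + √3 / 4 + √3 * (d - 1 / 2) := by
      rw [vol_seg d h0.le (by linarith)]
      have := integral_tangent (1 / 2) d (by norm_num) (by norm_num) c0.le (by linarith)
      have e1 : 2 * √(1 - (1 / 2 : ℝ) ^ 2) = √3 := by
        rw [show (1 - (1 / 2 : ℝ) ^ 2) = (1 / 2) ^ 2 * 3 by norm_num,
          Real.sqrt_mul (by norm_num), Real.sqrt_sq (by norm_num)]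
        ring
      rwa [I_half, e1] at this
    have hf : 3 * √3 * (2 * Real.pi / 3 + √3 / 4 + √3 * (d - 1 / 2)) ≤
        Real.pi * (√3 * (1 + d - -1) - 0 * (0 + 0 - 0)) := by
      have e2 : 3 * √3 * (2 * Real.pi / 3 + √3 / 4 + √3 * (d - 1 / 2))
        = 2 * (√3 * Real.pi) + (√3 * √3) * (3 / 4 + 3 * (d - 1 / 2)) := by ring
      have e3 : Real.pi * (√3 * (1 + d - -1) - 0 * (0 + 0 - 0))
        = 2 * (√3 * Real.pi) + √3 * Real.pi * d := by ring
      have h5 : 5.43 ≤ √3 * Real.pi := by nlinarith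
      have h6 : 5.43 * d ≤ √3 * Real.pi * d := mul_le_mul_of_nonneg_right h5 c0.le
      rw [e2, e3, hs3]
      linarith
    have hsd : 0 ≤ √3 * (d - 1 / 2) := mul_nonneg hs0.le (by linarith)
    refine hexagon_fr c u w hD (Seg d) (seg_convex d) (seg_compact d)
      (-(√3 / 2)) (-(1 / 2)) (√3) 0 0 1 0 d 0 (-1) _ _
      ⟨?_, ?_⟩ ⟨?_, ?_⟩ ⟨?_, ?_⟩ ⟨?_, ?_⟩ ⟨?_, ?_⟩ ⟨?_, ?_⟩ ?_ ?_ ?_ ?_ hK (theta_le hf) <;>
      (try simp only) <;> nlinarith
  push Not at c2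
  by_cases c3 : d ≤ 4 / 5
  · have hK : (volume (Seg d)).toReal ≤ 2 * Real.pi / 3 + √3 / 4 + √3 * (d - 1 / 2) := by
      rw [vol_seg d h0.le (by linarith)]
      have := integral_tangent (1 / 2) d (by norm_num) (by norm_num) c0.le (by linarith)
      have e1 : 2 * √(1 - (1 / 2 : ℝ) ^ 2) = √3 := by
        rw [show (1 - (1 / 2 : ℝ) ^ 2) = (1 / 2) ^ 2 * 3 by norm_num,
          Real.sqrt_mul (by norm_num), Real.sqrt_sq (by norm_num)]
        ring
      rwa [I_half, e1] at this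
    have hf : 3 * √3 * (2 * Real.pi / 3 + √3 / 4 + √3 * (d - 1 / 2)) ≤
        Real.pi * (0 * (0 + 0 - 0) - (d + 4 / 5) * (-(6 / 5) + -1 - 1)) := by
      have e2 : 3 * √3 * (2 * Real.pi / 3 + √3 / 4 + √3 * (d - 1 / 2))
        = 2 * (√3 * Real.pi) + (√3 * √3) * (3 / 4 + 3 * (d - 1 / 2)) := by ring
      have e3 : Real.pi * (0 * (0 + 0 - 0) - (d + 4 / 5) * (-(6 / 5) + -1 - 1))
        = 16 / 5 * (Real.pi * d) + 64 / 25 * Real.pi := by ring
      have h5 : √3 * Real.pi ≤ 1.7321 * Real.pi := mul_le_mul_of_nonneg_right hs2.le (by linarith)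
      have h6 : 0 ≤ (Real.pi - 3.14) * (d - 3 / 5) := mul_nonneg (by linarith) (by linarith)
      rw [e2, e3, hs3]
      nlinarith
    have hdd : d ^ 2 ≤ 16 / 25 := by nlinarith
    refine hexagon_fr c u w hD (Seg d) (seg_convex d) (seg_compact d)
      (3 / 5) (-(4 / 5)) 0 (d + 4 / 5) (-(6 / 5)) 0 (-1) 0 1 0 _ _
      ⟨?_, ?_⟩ ⟨?_, ?_⟩ ⟨?_, ?_⟩ ⟨?_, ?_⟩ ⟨?_, ?_⟩ ⟨?_, ?_⟩ ?_ ?_ ?_ ?_ hK (theta_le hf) <;>
      (try simp only) <;> nlinarith
  push Not at c3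
  by_cases c4 : d ≤ √3 / 2
  · have hK : (volume (Seg d)).toReal ≤ 5 * Real.pi / 6 - √3 / 4 + d := by
      rw [vol_seg d h0.le (by linarith)]
      have := integral_tangent (√3 / 2) d (by positivity) (by linarith) c0.le (by linarith)
      have e1 : 2 * √(1 - (√3 / 2) ^ 2) = 1 := by
        rw [show (1 - (√3 / 2) ^ 2 : ℝ) = (1 / 2) ^ 2 by nlinarith, Real.sqrt_sq (by norm_num)]
        norm_num
      rw [I_sqrt, e1] at this
      linarith
    have hf : 3 * √3 * (5 * Real.pi / 6 - √3 / 4 + d) ≤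
        Real.pi * (0 * (0 + 0 - 0) - (d + √3 / 2) * (-1 + -1 - 1)) := by
      have e2 : 3 * √3 * (5 * Real.pi / 6 - √3 / 4 + d)
        = 5 / 2 * (√3 * Real.pi) - (√3 * √3) * (3 / 4) + 3 * (√3 * d) := by ring
      have e3 : Real.pi * (0 * (0 + 0 - 0) - (d + √3 / 2) * (-1 + -1 - 1))
        = 3 * (Real.pi * d) + 3 / 2 * (√3 * Real.pi) := by ring
      have h5 : √3 * Real.pi ≤ 1.7321 * Real.pi := mul_le_mul_of_nonneg_right hs2.le (by linarith)
      have h6 : 0 ≤ (Real.pi - √3) * (d - 4 / 5) := mul_nonneg (by linarith) (by linarith)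
      rw [e2, e3, hs3]
      nlinarith
    have hdd : d ^ 2 ≤ 3 / 4 := by nlinarith
    refine hexagon_fr c u w hD (Seg d) (seg_convex d) (seg_compact d)
      (1 / 2) (-(√3 / 2)) 0 (d + √3 / 2) (-1) 0 (-1) 0 1 0 _ _
      ⟨?_, ?_⟩ ⟨?_, ?_⟩ ⟨?_, ?_⟩ ⟨?_, ?_⟩ ⟨?_, ?_⟩ ⟨?_, ?_⟩ ?_ ?_ ?_ ?_ hK (theta_le hf) <;>
      (try simp only) <;> nlinarith
  push Not at c4
  have hK : (volume (Seg d)).toReal ≤ Real.pi := by
    have h1 : (volume (Seg 1)).toReal = Real.pi := by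
      rw [vol_seg 1 (by norm_num) le_rfl, I_one]
    rw [← h1]
    refine ENNReal.toReal_mono (seg_compact 1).measure_lt_top.ne (measure_mono ?_)
    rintro ⟨x, y⟩ ⟨h2, -⟩
    refine ⟨h2, ?_⟩
    simp only at h2 ⊢
    nlinarith [sq_nonneg x, sq_nonneg (y - 1)]
  have hf : 3 * √3 * Real.pi ≤ Real.pi * (0 * (0 + 0 - 0) - √3 * (-1 + -1 - 1)) := by
    have e3 : Real.pi * (0 * (0 + 0 - 0) - √3 * (-1 + -1 - 1)) = 3 * √3 * Real.pi := by ring
    rw [e3]
  refine hexagon_fr c u w hD (Seg d) (seg_convex d) (seg_compact d)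
    (1 / 2) (-(√3 / 2)) 0 (√3) (-1) 0 (-1) 0 1 0 _ _
    ⟨?_, ?_⟩ ⟨?_, ?_⟩ ⟨?_, ?_⟩ ⟨?_, ?_⟩ ⟨?_, ?_⟩ ⟨?_, ?_⟩ ?_ ?_ ?_ ?_ hK (theta_le hf) <;>
    (try simp only) <;> nlinarith

end Pool.Agent.MP49888f.ES
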